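import Mathlib
import Pool.Agent.W488.IW.Stm

/-!
Project IW: the second derivative of the functional `wT`.
-/

set_option autoImplicit false

namespace Pool.Agent.W479.IW.HDiv

open Pool.Agent.W488.IW MeasureTheory Set Filter Topology

/-! ### the one-variable functions -/

theorem kcont {κ : ℝ → ℝ} (h : Bump κ) : Continuous κ := by
  obtain ⟨L, hL⟩ := h.lip
  exact hL.continuous

theorem kscont {κ : ℝ → ℝ} (h : Bump κ) : Continuous (fun s => κ s / s) := by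
  rw [continuous_iff_continuousAt]
  intro t
  rcases lt_or_ge t (1 / 2) with ht | ht
  · have h1 : (fun s => κ s / s) =ᶠ[𝓝 t] fun _ => (0 : ℝ) := by
      filter_upwards [Iio_mem_nhds ht] with s hs
      rw [h.low s (le_of_lt hs), zero_div]
    exact continuousAt_const.congr h1.symm
  · exact (kcont h).continuousAt.div continuousAt_id (by linarith)

theorem d_om1 {κ : ℝ → ℝ} (h : Bump κ) (t : ℝ) : HasDerivAt (om1 κ) (κ t) t :=
  ((kcont h).integral_hasStrictDerivAt 0 t).hasDerivAt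

theorem om1_cont {κ : ℝ → ℝ} (h : Bump κ) : Continuous (om1 κ) :=
  continuous_iff_continuousAt.2 (fun t => (d_om1 h t).continuousAt)

theorem d_om {κ : ℝ → ℝ} (h : Bump κ) (t : ℝ) : HasDerivAt (om κ) (om1 κ t) t :=
  ((om1_cont h).integral_hasStrictDerivAt 0 t).hasDerivAt

theorem d_hh1 {κ : ℝ → ℝ} (h : Bump κ) (t : ℝ) : HasDerivAt (hh1 κ) (κ t / t) t :=
  ((kscont h).integral_hasStrictDerivAt 0 t).hasDerivAt

theorem hh1_cont {κ : ℝ → ℝ} (h : Bump κ) : Continuous (hh1 κ) :=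
  continuous_iff_continuousAt.2 (fun t => (d_hh1 h t).continuousAt)

theorem d_hh {κ : ℝ → ℝ} (h : Bump κ) (t : ℝ) : HasDerivAt (hh κ) (hh1 κ t) t :=
  ((hh1_cont h).integral_hasStrictDerivAt 0 t).hasDerivAt

/-- `ω'(t) = t h'(t) - h(t)` -/
theorem om1_eq {κ : ℝ → ℝ} (h : Bump κ) (t : ℝ) : om1 κ t = t * hh1 κ t - hh κ t := by
  have h1 : ∀ s, HasDerivAt (fun t => om1 κ t - (t * hh1 κ t - hh κ t)) 0 s := by
    intro s
    have h2 := (d_om1 h s).sub (((hasDerivAt_id s).mul (d_hh1 h s)).sub (d_hh h s))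
    have e : κ s - (1 * hh1 κ s + s * (κ s / s) - hh1 κ s) = 0 := by
      by_cases hs : s = 0
      · rw [hs, h.low 0 (by norm_num)]
        ring
      · field_simp
        ring
    rw [← e]
    exact h2
  have h3 := is_const_of_deriv_eq_zero (fun s => (h1 s).differentiableAt) (fun s => (h1 s).deriv) t 0
  have e1 : om1 κ 0 = 0 := intervalIntegral.integral_same
  have e2 : hh κ 0 = 0 := intervalIntegral.integral_same
  simp only [e1, e2, zero_mul, sub_zero] at h3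
  linarith

/-! ### linear forms -/

/-- real part of the first component -/
noncomputable def r1 : (ℂ × ℂ) →L[ℝ] ℝ := Complex.reCLM.comp (ContinuousLinearMap.fst ℝ ℂ ℂ)
/-- imaginary part of the first component -/
noncomputable def i1 : (ℂ × ℂ) →L[ℝ] ℝ := Complex.imCLM.comp (ContinuousLinearMap.fst ℝ ℂ ℂ)
/-- real part of the second component -/
noncomputable def r2 : (ℂ × ℂ) →L[ℝ] ℝ := Complex.reCLM.comp (ContinuousLinearMap.snd ℝ ℂ ℂ)
/-- imaginary part of the second component -/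
noncomputable def i2 : (ℂ × ℂ) →L[ℝ] ℝ := Complex.imCLM.comp (ContinuousLinearMap.snd ℝ ℂ ℂ)

/-- `F ↦ ⟨F.1, ·⟩` -/
noncomputable def L1 : (ℂ × ℂ) →L[ℝ] (ℂ × ℂ) →L[ℝ] ℝ := r1.smulRight r1 + i1.smulRight i1
/-- `F ↦ ⟨F.2, ·⟩` -/
noncomputable def L2 : (ℂ × ℂ) →L[ℝ] (ℂ × ℂ) →L[ℝ] ℝ := r2.smulRight r2 + i2.smulRight i2

theorem L1_apply (F U : ℂ × ℂ) : L1 F U = F.1.re * U.1.re + F.1.im * U.1.im := by
  simp [L1, r1, i1]

theorem L2_apply (F U : ℂ × ℂ) : L2 F U = F.2.re * U.2.re + F.2.im * U.2.im := by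
  simp [L2, r2, i2]

theorem XX_pos {ε : ℝ} (hε : 0 < ε) (a : ℂ) : 0 < XX ε a := by
  unfold XX
  positivity

theorem dX {ε : ℝ} (hε : 0 < ε) (F : ℂ × ℂ) :
    HasFDerivAt (fun F : ℂ × ℂ => XX ε F.1) ((XX ε F.1)⁻¹ • L1 F) F := by
  have e : (fun F : ℂ × ℂ => XX ε F.1) = fun F => Real.sqrt (r1 F * r1 F + i1 F * i1 F + ε ^ 2) := by
    funext G
    rw [XX, Complex.sq_norm, Complex.normSq_apply]
    rfl
  have hpos' : 0 < r1 F * r1 F + i1 F * i1 F + ε ^ 2 := by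
    have h3 := mul_self_nonneg (r1 F)
    have h4 := mul_self_nonneg (i1 F)
    have h5 : 0 < ε ^ 2 := by positivity
    linarith
  have hpos : r1 F * r1 F + i1 F * i1 F + ε ^ 2 ≠ 0 := hpos'.ne'
  have h1 := (((r1.hasFDerivAt (x := F)).mul (r1.hasFDerivAt (x := F))).add
    ((i1.hasFDerivAt (x := F)).mul (i1.hasFDerivAt (x := F)))).add_const (ε ^ 2)
  have h2 := h1.sqrt hpos
  have e2 : XX ε F.1 = Real.sqrt (r1 F * r1 F + i1 F * i1 F + ε ^ 2) := congrFun e F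
  rw [e, e2]
  refine h2.congr_fderiv ?_
  ext U
  all_goals
    have : Real.sqrt (r1 F * r1 F + i1 F * i1 F + ε ^ 2) ≠ 0 := (Real.sqrt_pos.2 hpos').ne'
    simp [L1]
    field_simp
    ring

theorem dY {ε : ℝ} (hε : 0 < ε) (F : ℂ × ℂ) :
    HasFDerivAt (fun F : ℂ × ℂ => XX ε F.2) ((XX ε F.2)⁻¹ • L2 F) F := by
  have e : (fun F : ℂ × ℂ => XX ε F.2) = fun F => Real.sqrt (r2 F * r2 F + i2 F * i2 F + ε ^ 2) := by
    funext G
    rw [XX, Complex.sq_norm, Complex.normSq_apply]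
    rfl
  have hpos' : 0 < r2 F * r2 F + i2 F * i2 F + ε ^ 2 := by
    have h3 := mul_self_nonneg (r2 F)
    have h4 := mul_self_nonneg (i2 F)
    have h5 : 0 < ε ^ 2 := by positivity
    linarith
  have hpos : r2 F * r2 F + i2 F * i2 F + ε ^ 2 ≠ 0 := hpos'.ne'
  have h1 := (((r2.hasFDerivAt (x := F)).mul (r2.hasFDerivAt (x := F))).add
    ((i2.hasFDerivAt (x := F)).mul (i2.hasFDerivAt (x := F)))).add_const (ε ^ 2)
  have h2 := h1.sqrt hpos
  have e2 : XX ε F.2 = Real.sqrt (r2 F * r2 F + i2 F * i2 F + ε ^ 2) := congrFun e F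
  rw [e, e2]
  refine h2.congr_fderiv ?_
  ext U
  all_goals
    have : Real.sqrt (r2 F * r2 F + i2 F * i2 F + ε ^ 2) ≠ 0 := (Real.sqrt_pos.2 hpos').ne'
    simp [L2]
    field_simp
    ring

/-- coefficient of the first form -/
noncomputable def AA (κ : ℝ → ℝ) (ε ϑ : ℝ) (F : ℂ × ℂ) : ℝ :=
  hh1 κ (XX ε F.1 + XX ε F.2) + om1 κ (XX ε F.1 - XX ε F.2) * (XX ε F.1)⁻¹ + ϑ

/-- coefficient of the second form -/
noncomputable def BB (κ : ℝ → ℝ) (ε ϑ : ℝ) (F : ℂ × ℂ) : ℝ :=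
  -hh1 κ (XX ε F.1 + XX ε F.2) + (om1 κ (XX ε F.1 + XX ε F.2) - om1 κ (XX ε F.1 - XX ε F.2)) *
    (XX ε F.2)⁻¹ + ϑ

/-- first derivative -/
theorem d1 {κ : ℝ → ℝ} (h : Bump κ) {ε : ℝ} (ϑ : ℝ) (hε : 0 < ε) (F : ℂ × ℂ) :
    HasFDerivAt (wT κ ε ϑ) (AA κ ε ϑ F • L1 F + BB κ ε ϑ F • L2 F) F := by
  have hX := dX hε F
  have hY := dY hε F
  have hS := hX.add hY
  have hV := hX.sub hY
  have h1 := (d_hh h (XX ε F.1 + XX ε F.2)).comp_hasFDerivAt F hS
  have h2 := (d_om h (XX ε F.1 + XX ε F.2)).comp_hasFDerivAt F hS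
  have h3 := (d_om h (XX ε F.1 - XX ε F.2)).comp_hasFDerivAt F hV
  have h4 := (((hV.mul h1).add h2).mul_const (1 / 2 : ℝ)).add h3
  have h5 := ((((r1.hasFDerivAt (x := F)).mul (r1.hasFDerivAt (x := F))).add
    ((i1.hasFDerivAt (x := F)).mul (i1.hasFDerivAt (x := F)))).add
    (((r2.hasFDerivAt (x := F)).mul (r2.hasFDerivAt (x := F))).add
    ((i2.hasFDerivAt (x := F)).mul (i2.hasFDerivAt (x := F))))).const_mul (ϑ / 2)
  have h6 := h4.add h5
  have e : wT κ ε ϑ = fun F => (((XX ε F.1 - XX ε F.2) * hh κ (XX ε F.1 + XX ε F.2) +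
      om κ (XX ε F.1 + XX ε F.2)) * (1 / 2 : ℝ) + om κ (XX ε F.1 - XX ε F.2)) +
      ϑ / 2 * ((r1 F * r1 F + i1 F * i1 F) + (r2 F * r2 F + i2 F * i2 F)) := by
    funext G
    rw [wT, wW, fW, Complex.sq_norm, Complex.normSq_apply, Complex.sq_norm, Complex.normSq_apply]
    simp only [r1, i1, r2, i2, ContinuousLinearMap.comp_apply, ContinuousLinearMap.coe_fst',
      ContinuousLinearMap.coe_snd', Complex.reCLM_apply, Complex.imCLM_apply]
    ring
  rw [e]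
  refine h6.congr_fderiv ?_
  have hx := (XX_pos hε F.1).ne'
  have hy := (XX_pos hε F.2).ne'
  have hid := om1_eq h (XX ε F.1 + XX ε F.2)
  refine ContinuousLinearMap.ext (fun U => ?_)
  simp only [add_apply, smul_apply, sub_apply, L1_apply, L2_apply, smul_eq_mul, AA, BB,
    Function.comp_apply, Pi.add_apply, Pi.sub_apply]
  have er1 : r1 F = F.1.re := rfl
  have ei1 : i1 F = F.1.im := rfl
  have er2 : r2 F = F.2.re := rfl
  have ei2 : i2 F = F.2.im := rfl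
  have er1' : r1 U = U.1.re := rfl
  have ei1' : i1 U = U.1.im := rfl
  have er2' : r2 U = U.2.re := rfl
  have ei2' : i2 U = U.2.im := rfl
  rw [er1, ei1, er2, ei2, er1', ei1', er2', ei2']
  generalize XX ε F.1 = x at *
  generalize XX ε F.2 = y at *
  rw [hid]
  field_simp
  ring

/-- second derivative -/
theorem d2 {κ : ℝ → ℝ} (h : Bump κ) {ε : ℝ} (ϑ : ℝ) (hε : 0 < ε) (F U W : ℂ × ℂ) :
    fderiv ℝ (fderiv ℝ (wT κ ε ϑ)) F U W =
      AA κ ε ϑ F * L1 U W + BB κ ε ϑ F * L2 U W +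
      ((rho κ (XX ε F.1) (XX ε F.2) / 2 + tau κ (XX ε F.1) (XX ε F.2) -
        xi κ (XX ε F.1) (XX ε F.2)) / XX ε F.1 ^ 2) * (L1 F U * L1 F W) +
      ((rho κ (XX ε F.1) (XX ε F.2) / 2 - tau κ (XX ε F.1) (XX ε F.2)) /
        (XX ε F.1 * XX ε F.2)) * (L1 F U * L2 F W + L2 F U * L1 F W) +
      ((rho κ (XX ε F.1) (XX ε F.2) / 2 + tau κ (XX ε F.1) (XX ε F.2) -
        ze κ (XX ε F.1) (XX ε F.2)) / XX ε F.2 ^ 2) * (L2 F U * L2 F W) := by
  have e : fderiv ℝ (wT κ ε ϑ) = fun F => AA κ ε ϑ F • L1 F + BB κ ε ϑ F • L2 F :=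
    funext (fun F => (d1 h ϑ hε F).fderiv)
  rw [e]
  have hX := dX hε F
  have hY := dY hε F
  have hS := hX.add hY
  have hV := hX.sub hY
  have hx := (XX_pos hε F.1).ne'
  have hy := (XX_pos hε F.2).ne'
  have hIX := (hasDerivAt_inv hx).comp_hasFDerivAt F hX
  have hIY := (hasDerivAt_inv hy).comp_hasFDerivAt F hY
  have h1 := (d_hh1 h (XX ε F.1 + XX ε F.2)).comp_hasFDerivAt F hS
  have h2 := (d_om1 h (XX ε F.1 + XX ε F.2)).comp_hasFDerivAt F hS
  have h3 := (d_om1 h (XX ε F.1 - XX ε F.2)).comp_hasFDerivAt F hV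
  have hA : HasFDerivAt (AA κ ε ϑ) _ F := (h1.add (h3.mul hIX)).add_const ϑ
  have hB : HasFDerivAt (BB κ ε ϑ) _ F := (h1.neg.add ((h2.sub h3).mul hIY)).add_const ϑ
  have hL1 := L1.hasFDerivAt (x := F)
  have hL2 := L2.hasFDerivAt (x := F)
  have hfin : HasFDerivAt (fun F => AA κ ε ϑ F • L1 F + BB κ ε ϑ F • L2 F) _ F :=
    (hA.smul hL1).add (hB.smul hL2)
  rw [HasFDerivAt.fderiv hfin]
  simp only [add_apply, smul_apply, sub_apply, neg_apply, L1_apply, L2_apply, smul_eq_mul,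
    Function.comp_apply, ContinuousLinearMap.smulRight_apply, rho, tau, xi, ze, Pi.add_apply,
    Pi.sub_apply]
  have hs : XX ε F.1 + XX ε F.2 ≠ 0 := by
    have := XX_pos hε F.1
    have := XX_pos hε F.2
    positivity
  generalize XX ε F.1 = x at *
  generalize XX ε F.2 = y at *
  generalize AA κ ε ϑ F = A at *
  generalize BB κ ε ϑ F = B at *
  field_simp
  ring

theorem main : S_HDIV := by
  intro κ h ε ϑ hε a b p q r φ
  rw [DIV, d2 h ϑ hε, d2 h ϑ hε]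
  have hx := (XX_pos hε a).ne'
  have hy := (XX_pos hε b).ne'
  have hAB : BB κ ε ϑ (a, b) = xi κ (XX ε a) (XX ε b) + ze κ (XX ε a) (XX ε b) + 2 * ϑ -
      AA κ ε ϑ (a, b) := by
    simp only [AA, BB, xi, ze]
    field_simp
    ring
  rw [hAB]
  simp only [L1_apply, L2_apply, Lam]
  generalize AA κ ε ϑ (a, b) = A
  generalize rho κ (XX ε a) (XX ε b) = ρ
  generalize tau κ (XX ε a) (XX ε b) = τ
  generalize xi κ (XX ε a) (XX ε b) = ξ
  generalize ze κ (XX ε a) (XX ε b) = ζ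
  generalize XX ε a = X at *
  generalize XX ε b = Y at *
  have ha : ((‖a‖ ^ 2 : ℝ) : ℂ) = ((a.re * a.re + a.im * a.im : ℝ) : ℂ) := by
    rw [Complex.sq_norm, Complex.normSq_apply]
  have hb : ((‖b‖ ^ 2 : ℝ) : ℂ) = ((b.re * b.re + b.im * b.im : ℝ) : ℂ) := by
    rw [Complex.sq_norm, Complex.normSq_apply]
  rw [← Complex.ofReal_pow, ← Complex.ofReal_pow, ha, hb]
  have e11 : (ρ / 2 + τ - ξ) / X ^ 2 = 2 * ((ρ / 2 + τ - ξ) / (2 * X ^ 2)) := by
    field_simp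
  have e22 : (ρ / 2 + τ - ζ) / Y ^ 2 = 2 * ((ρ / 2 + τ - ζ) / (2 * Y ^ 2)) := by
    field_simp
  have e12 : (ρ / 2 - τ) / (X * Y) = 2 * ((ρ / 2 - τ) / (2 * X * Y)) := by
    field_simp
  rw [e11, e22, e12]
  generalize (ρ / 2 + τ - ξ) / (2 * X ^ 2) = c11
  generalize (ρ / 2 + τ - ζ) / (2 * Y ^ 2) = c22
  generalize (ρ / 2 - τ) / (2 * X * Y) = c12
  simp [pow_two]
  ring

end Pool.Agent.W479.IW.HDiv
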